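import Pool.Agent.Q88.TAF.Chars

/-!
# MP_3ea43b_an, Q1: bounded and unbounded cocycles of a TAF algebra never coexist

All definitions are in `Pool.Agent.Q88.TAF.Defs`.

For every TAF subalgebra of a UHF algebra: if it admits an unbounded cocycle, then it admits no
bounded cocycle. This is the negated form of the question, so the answer to Q1 is no.

Idea of the proof.  A bounded cocycle `c'` is `b(y) - b(x)` with `b` continuous
(`exists_transfer`). Let `c (x n, y n) → ∞` and pass to limits `x`, `y`. By minimality of the
relation and since `b` is not constant there are `z ~ x` and `w ~ y` with `b z > b w`. Transport by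
the local bisections through `(z, x)` and `(w, y)`: the values of `c` at the transported pairs
`(z n, w n)` still tend to `∞`, so these pairs lie in the spectrum, hence `b (w n) ≥ b (z n)`, and
in the limit `b w ≥ b z`, a contradiction.
-/

namespace Pool.Agent.Results.MP_3ea43b_an.NoBoundedCocycle

open Q88.Tri

/-- If a TAF subalgebra of a UHF algebra admits an unbounded cocycle `c`, then it admits no bounded
cocycle. -/
theorem result {A : Type*} [CStarAlgebra A] (U : UHF A) (𝒯 : TAF U) (c : U.G → ℝ)
    (hc : 𝒯.Admits c) (hunb : ¬ U.IsBdd c) :
    ¬ ∃ c' : U.G → ℝ, 𝒯.Admits c' ∧ U.IsBdd c' := by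
  rintro ⟨c', hc', hb⟩
  exact hunb (𝒯.isBdd_of_isBdd hc hc' hb)

end Pool.Agent.Results.MP_3ea43b_an.NoBoundedCocycle
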